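import Pool.Agent.Helper21.WD.Stmts
import Pool.Agent.Helper14.MT9.GEN

/-!
# An algebra whose components of degree `1` and `-1` are everything
-/

set_option autoImplicit false

open Matrix

namespace MT

namespace Fin14

variable {K : Type} [Field K] {n : ℕ}

/-- skewness of `LL` -/
theorem LL_skew {ψ : Matrix (Fin n) (Fin n) K} {ε : K} (hε : ε * ε = 1)
    (hs : ψ.transpose = ε • ψ) (x y : Fin n → K) :
    (LL ψ ε x y).transpose * ψ + ψ * LL ψ ε x y = 0 := by
  have h1 : ∀ v : Fin n → K, v ᵥ* ψ = ε • (ψ *ᵥ v) := by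
    intro v
    rw [← mulVec_transpose, hs, smul_mulVec]
  unfold LL
  rw [transpose_sub, transpose_smul, transpose_vecMulVec, transpose_vecMulVec, sub_mul, mul_sub,
    smul_mul_assoc, mul_smul_comm, vecMulVec_mul, vecMulVec_mul, mul_vecMulVec, mul_vecMulVec,
    h1, h1, vecMulVec_smul, vecMulVec_smul, smul_smul, hε, one_smul]
  abel

/-- a skew matrix whose entries have the degrees `(p, q)`, `p ≠ -q`, vanishes -/
theorem skew_zero {ψ : Matrix (Fin n) (Fin n) K} (hu : ψ.det ≠ 0) {s : Fin n → ℤ}
    (hg : ∀ i j, ψ i j ≠ 0 → s i + s j = 0) {D : Matrix (Fin n) (Fin n) K}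
    (hD : D.transpose * ψ + ψ * D = 0) {p q : ℤ} (hpq : p + q ≠ 0)
    (hD2 : ∀ i j, D i j ≠ 0 → s i = p ∧ s j = q) : D = 0 := by
  have h1 : ψ * D = 0 := by
    ext k j
    rw [Matrix.zero_apply]
    by_cases hj : s j = q
    · have h2 : (ψ * D) k j = -(D.transpose * ψ) k j := by
        have := congrFun (congrFun hD k) j
        rw [Matrix.add_apply, Matrix.zero_apply] at this
        exact eq_neg_of_add_eq_zero_right this
      rw [h2, Matrix.mul_apply, neg_eq_zero]
      apply Finset.sum_eq_zero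
      intro i _
      rw [Matrix.transpose_apply]
      by_cases h3 : D i k = 0
      · rw [h3, zero_mul]
      · by_cases h4 : ψ i j = 0
        · rw [h4, mul_zero]
        · exfalso
          have h5 := hg i j h4
          rw [(hD2 i k h3).1, hj] at h5
          exact hpq h5
    · rw [Matrix.mul_apply]
      apply Finset.sum_eq_zero
      intro i _
      have h3 : D i j = 0 := by
        by_contra h4
        exact hj (hD2 i j h4).2
      rw [h3, mul_zero]
  have hdet : IsUnit ψ.det := isUnit_iff_ne_zero.mpr hu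
  calc D = ψ⁻¹ * (ψ * D) := by
        rw [← Matrix.mul_assoc, Matrix.nonsing_inv_mul _ hdet, Matrix.one_mul]
    _ = 0 := by rw [h1, Matrix.mul_zero]

/-- the entries of `LL x ρ` -/
theorem LL_deg {ψ : Matrix (Fin n) (Fin n) K} {ε : K} {s : Fin n → ℤ}
    (hg : ∀ i j, ψ i j ≠ 0 → s i + s j = 0) {x ρ : Fin n → K} {c : ℤ}
    (hx : ∀ j, x j ≠ 0 → s j = c) (hρ : ∀ j, ρ j ≠ 0 → s j = 0) (i j : Fin n)
    (h : LL ψ ε x ρ i j ≠ 0) : (s i = c ∧ s j = 0) ∨ (s i = 0 ∧ s j = -c) := by
  have hm : ∀ (v : Fin n → K) (e : ℤ), (∀ j, v j ≠ 0 → s j = e) → ∀ j, (ψ *ᵥ v) j ≠ 0 →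
      s j = -e := by
    intro v e hv j hj
    by_contra hcon
    apply hj
    rw [mulVec_eq_sum, Finset.sum_apply]
    apply Finset.sum_eq_zero
    intro l _
    by_cases hl : v l = 0
    · simp [hl]
    · by_cases hψ : ψ j l = 0
      · simp [hψ]
      · exfalso
        have h1 := hg j l hψ
        have h2 := hv l hl
        omega
  unfold LL at h
  rw [Matrix.sub_apply, Matrix.smul_apply, vecMulVec_apply, vecMulVec_apply] at h
  by_cases h1 : x i * (ψ *ᵥ ρ) j = 0
  · right
    have h2 : ρ i * (ψ *ᵥ x) j ≠ 0 := by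
      intro h3
      apply h
      rw [h1, h3, smul_zero, sub_zero]
    exact ⟨hρ i (left_ne_zero_of_mul h2), hm x c hx j (right_ne_zero_of_mul h2)⟩
  · left
    refine ⟨hx i (left_ne_zero_of_mul h1), ?_⟩
    have := hm ρ 0 hρ j (right_ne_zero_of_mul h1)
    omega

end Fin14

open Gen9 Fin14

theorem st_FIN : ST_FIN := by
  intro K _ _ n ε ψ s a hT hbd htop hinner hp hm A hA
  have hεε : ε * ε = 1 := by
    rcases hT.sign with h | h <;> rw [h] <;> ring
  -- the components of degree one
  have hplus : ∀ u ρ : Fin n → K, (∀ j, u j ≠ 0 → s j = 1) → (∀ j, ρ j ≠ 0 → s j = 0) →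
      LL ψ ε u ρ ∈ a := by
    intro u ρ hu hρ
    obtain ⟨B, hB, hB2⟩ := hp (LL ψ ε u ρ)
    have hc := hT.comp B hB 1
    have h0 : cmp s 1 B - LL ψ ε u ρ = 0 := by
      refine skew_zero hT.unit hT.grad (p := 0) (q := -1) ?_ (by norm_num) ?_
      · have e1 := hT.iso _ hc
        have e2 := LL_skew hεε hT.symm u ρ
        rw [transpose_sub, sub_mul, mul_sub]
        calc _ = ((cmp s 1 B).transpose * ψ + ψ * cmp s 1 B)
              - ((LL ψ ε u ρ).transpose * ψ + ψ * LL ψ ε u ρ) := by abel
          _ = 0 := by rw [e1, e2, sub_zero]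
      · intro i j hij
        have h1 : s i - s j = 1 := by
          by_contra h2
          apply hij
          have h3 : cmp s 1 B i j = 0 := if_neg h2
          have h4 : LL ψ ε u ρ i j = 0 := by
            by_contra h5
            rcases LL_deg hT.grad hu hρ i j h5 with h6 | h6 <;> omega
          rw [Matrix.sub_apply, h3, h4, sub_zero]
        have hi := abs_le.mp (hbd i)
        have hj := abs_le.mp (hbd j)
        by_cases h2 : s i = 1
        · exfalso
          have h3 : s j = 0 := by omega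
          apply hij
          have h4 : cmp s 1 B i j = B i j := if_pos h1
          rw [Matrix.sub_apply, h4, hB2 i j h2 h3, sub_self]
        · constructor <;> omega
    rw [← sub_eq_zero.mp h0]
    exact hc
  have hminus : ∀ u ρ : Fin n → K, (∀ j, u j ≠ 0 → s j = -1) → (∀ j, ρ j ≠ 0 → s j = 0) →
      LL ψ ε u ρ ∈ a := by
    intro u ρ hu hρ
    obtain ⟨B, hB, hB2⟩ := hm (LL ψ ε u ρ)
    have hc := hT.comp B hB (-1)
    have h0 : cmp s (-1) B - LL ψ ε u ρ = 0 := by
      refine skew_zero hT.unit hT.grad (p := -1) (q := 0) ?_ (by norm_num) ?_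
      · have e1 := hT.iso _ hc
        have e2 := LL_skew hεε hT.symm u ρ
        rw [transpose_sub, sub_mul, mul_sub]
        calc _ = ((cmp s (-1) B).transpose * ψ + ψ * cmp s (-1) B)
              - ((LL ψ ε u ρ).transpose * ψ + ψ * LL ψ ε u ρ) := by abel
          _ = 0 := by rw [e1, e2, sub_zero]
      · intro i j hij
        have h1 : s i - s j = -1 := by
          by_contra h2
          apply hij
          have h3 : cmp s (-1) B i j = 0 := if_neg h2
          have h4 : LL ψ ε u ρ i j = 0 := by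
            by_contra h5
            rcases LL_deg hT.grad hu hρ i j h5 with h6 | h6 <;> omega
          rw [Matrix.sub_apply, h3, h4, sub_zero]
        have hi := abs_le.mp (hbd i)
        have hj := abs_le.mp (hbd j)
        by_cases h2 : s i = 0
        · exfalso
          have h3 : s j = 1 := by omega
          apply hij
          have h4 : cmp s (-1) B i j = B i j := if_pos h1
          rw [Matrix.sub_apply, h4, hB2 i j h2 h3, sub_self]
        · constructor <;> omega
    rw [← sub_eq_zero.mp h0]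
    exact hc
  let V : Submodule K (Fin n → K) :=
    { carrier := {x | ∀ j, x j ≠ 0 → s j = 1 ∨ s j = -1}
      zero_mem' := fun j hj => absurd rfl hj
      add_mem' := by
        intro x y hx hy j hj
        by_cases h0 : x j = 0
        · apply hy j
          intro h1
          apply hj
          rw [Pi.add_apply, h0, h1, add_zero]
        · exact hx j h0
      smul_mem' := by
        intro c x hx j hj
        apply hx j
        intro h0
        apply hj
        rw [Pi.smul_apply, h0, smul_zero] }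
  let W : Submodule K (Fin n → K) :=
    { carrier := {x | ∀ j, x j ≠ 0 → s j = 0}
      zero_mem' := fun j hj => absurd rfl hj
      add_mem' := by
        intro x y hx hy j hj
        by_cases h0 : x j = 0
        · apply hy j
          intro h1
          apply hj
          rw [Pi.add_apply, h0, h1, add_zero]
        · exact hx j h0
      smul_mem' := by
        intro c x hx j hj
        apply hx j
        intro h0
        apply hj
        rw [Pi.smul_apply, h0, smul_zero] }
  -- orthogonality
  have hor : ∀ u v : Fin n → K, (∀ i j, u i ≠ 0 → v j ≠ 0 → ψ i j = 0) →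
      (ψ *ᵥ v) ⬝ᵥ u = 0 := by
    intro u v huv
    unfold dotProduct
    apply Finset.sum_eq_zero
    intro i _
    by_cases hi : u i = 0
    · rw [hi, mul_zero]
    · have h0 : (ψ *ᵥ v) i = 0 := by
        rw [mulVec_eq_sum, Finset.sum_apply]
        apply Finset.sum_eq_zero
        intro j _
        by_cases hj : v j = 0
        · simp [hj]
        · simp [huv i j hi hj]
      rw [h0, zero_mul]
  have hVW : ∀ i j, (s i = 1 ∨ s i = -1) → s j = 0 → ψ i j = 0 ∧ ψ j i = 0 := by
    intro i j hi hj
    constructor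
    · by_contra h0
      have := hT.grad i j h0
      omega
    · by_contra h0
      have := hT.grad j i h0
      omega
  have h1 : ∀ x ∈ V, ∀ ρ ∈ W, (ψ *ᵥ ρ) ⬝ᵥ x = 0 := by
    intro x hx ρ hρ
    exact hor x ρ fun i j hi hj => (hVW i j (hx i hi) (hρ j hj)).1
  have h2 : ∀ x ∈ V, ∀ ρ ∈ W, (ψ *ᵥ x) ⬝ᵥ ρ = 0 := by
    intro x hx ρ hρ
    exact hor ρ x fun i j hi hj => (hVW j i (hx j hj) (hρ i hi)).2
  have hcol : ∀ j, ∃ i, ψ i j ≠ 0 := by
    intro j
    by_contra hcon
    push Not at hcon
    exact hT.unit (Matrix.det_eq_zero_of_column_eq_zero j hcon)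
  have hpair : ∀ (U : Submodule K (Fin n → K)) (i j : Fin n), ψ i j ≠ 0 →
      (Pi.single j 1 : Fin n → K) ∈ U → (Pi.single i 1 : Fin n → K) ∈ U →
      ∃ ρ ∈ U, ∃ ρ' ∈ U, (ψ *ᵥ ρ) ⬝ᵥ ρ' ≠ 0 := by
    intro U i j hij hj hi
    refine ⟨_, hj, _, hi, ?_⟩
    rw [mulVec_single_one, dotProduct_single_one]
    exact hij
  have hW : ∃ ρ ∈ W, ∃ ρ' ∈ W, (ψ *ᵥ ρ) ⬝ᵥ ρ' ≠ 0 := by
    obtain ⟨j, hj⟩ := hinner
    obtain ⟨i, hi⟩ := hcol j
    have hg := hT.grad i j hi
    apply hpair W i j hi
    · intro k hk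
      have : k = j := by
        by_contra hkj
        exact hk (Pi.single_eq_of_ne hkj 1)
      rw [this]
      exact hj
    · intro k hk
      have : k = i := by
        by_contra hkj
        exact hk (Pi.single_eq_of_ne hkj 1)
      rw [this]
      omega
  have hV : ∃ ρ ∈ V, ∃ ρ' ∈ V, (ψ *ᵥ ρ) ⬝ᵥ ρ' ≠ 0 := by
    obtain ⟨j, hj⟩ := htop
    obtain ⟨i, hi⟩ := hcol j
    have hg := hT.grad i j hi
    apply hpair V i j hi
    · intro k hk
      have : k = j := by
        by_contra hkj
        exact hk (Pi.single_eq_of_ne hkj 1)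
      rw [this]
      exact Or.inl hj
    · intro k hk
      have : k = i := by
        by_contra hkj
        exact hk (Pi.single_eq_of_ne hkj 1)
      rw [this]
      right
      omega
  have haV : ∀ x ∈ V, ∀ ρ ∈ W, LL ψ ε x ρ ∈ a := by
    intro x hx ρ hρ
    have e1 : x = (fun j => if s j = 1 then x j else 0) + fun j => if s j = 1 then 0 else x j := by
      ext j
      by_cases h4 : s j = 1
      · simp [h4]
      · simp [h4]
    rw [e1, LL_add_left]
    refine a.add_mem (hplus _ ρ ?_ hρ) (hminus _ ρ ?_ hρ)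
    · intro j hj
      by_contra h4
      apply hj
      simp [h4]
    · intro j hj
      by_cases h4 : s j = 1
      · exfalso
        apply hj
        simp [h4]
      · have h5 : x j ≠ 0 := by
          intro h6
          apply hj
          simp [h6]
        exact (hx j h5).resolve_left h4
  have haW : ∀ ρ ∈ W, ∀ x ∈ V, LL ψ ε ρ x ∈ a := by
    intro ρ hρ x hx
    rw [LL_swap ψ hεε x ρ]
    exact a.neg_mem (a.smul_mem _ (haV x hx ρ hρ))
  have hQQ := core hT.sign hT.symm hT.brk V W h1 h2 haV hW
  have hRR := core hT.sign hT.symm hT.brk W V (fun ρ hρ x hx => h2 x hx ρ hρ)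
    (fun ρ hρ x hx => h1 x hx ρ hρ) haW hV
  -- all `LL`
  have hsplit : ∀ u : Fin n → K, ∃ x ∈ V, ∃ ρ ∈ W, u = x + ρ := by
    intro u
    refine ⟨fun j => if s j = 0 then 0 else u j, ?_, fun j => if s j = 0 then u j else 0,
      ?_, ?_⟩
    · intro j hj
      have h3 : ¬ s j = 0 := by
        intro h4
        apply hj
        simp [h4]
      have h5 := abs_le.mp (hbd j)
      omega
    · intro j hj
      by_contra h4
      apply hj
      simp [h4]
    · ext j
      by_cases h4 : s j = 0
      · simp [h4]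
      · simp [h4]
  have hall : ∀ u v : Fin n → K, LL ψ ε u v ∈ a := by
    intro u v
    obtain ⟨x, hx, ρ, hρ, rfl⟩ := hsplit u
    obtain ⟨x', hx', ρ', hρ', rfl⟩ := hsplit v
    rw [LL_add_left, LL_add_right, LL_add_right]
    exact a.add_mem (a.add_mem (hQQ x' hx' x hx) (haV x hx ρ' hρ'))
      (a.add_mem (haW ρ hρ x' hx') (hRR ρ' hρ' ρ hρ))
  -- the matrix is a sum of these
  have hdet : IsUnit ψ.det := isUnit_iff_ne_zero.mpr hT.unit
  have hsum : ∑ j, LL ψ ε (A *ᵥ Pi.single j 1) (ψ⁻¹ *ᵥ Pi.single j 1) = (2 : K) • A := by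
    unfold LL
    rw [Finset.sum_sub_distrib, ← Finset.smul_sum]
    have e1 : ∀ B C : Matrix (Fin n) (Fin n) K,
        ∑ j, vecMulVec (B *ᵥ Pi.single j 1) (C *ᵥ Pi.single j 1) = B * C.transpose := by
      intro B C
      ext p q
      rw [Matrix.sum_apply, Matrix.mul_apply]
      apply Finset.sum_congr rfl
      intro j _
      rw [vecMulVec_apply, mulVec_single_one, mulVec_single_one]
      rfl
    have e2 : ∀ j : Fin n, ψ *ᵥ (ψ⁻¹ *ᵥ Pi.single j 1) = (1 : Matrix (Fin n) (Fin n) K) *ᵥ
        (Pi.single j 1 : Fin n → K) := by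
      intro j
      rw [mulVec_mulVec, Matrix.mul_nonsing_inv _ hdet]
    have e3 : ∀ j : Fin n, ψ *ᵥ (A *ᵥ Pi.single j 1) = (ψ * A) *ᵥ
        (Pi.single j 1 : Fin n → K) := by
      intro j
      rw [mulVec_mulVec]
    simp only [e2, e3]
    rw [e1, e1, transpose_one, Matrix.mul_one, transpose_mul, hT.symm]
    have e4 : A.transpose * ψ = -(ψ * A) := eq_neg_of_add_eq_zero_left hA
    rw [Matrix.mul_smul, Matrix.mul_smul, smul_smul, hεε, one_smul, e4, Matrix.mul_neg,
      ← Matrix.mul_assoc, Matrix.nonsing_inv_mul _ hdet, Matrix.one_mul, sub_neg_eq_add, two_smul]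
  have hmem : (2 : K) • A ∈ a := by
    rw [← hsum]
    exact Submodule.sum_mem _ fun j _ => hall _ _
  exact (Submodule.smul_mem_iff a two_ne_zero).mp hmem

end MT
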