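import Pool.Agent.Helper5.WD.Stmts

/-! # XMAC: all `n` -/

set_option autoImplicit false

open Finset Pool.Agent.Helper8.UN Pool.Agent.Helper5.FV

namespace Pool.Agent.Helper5.WD

theorem st_XMAC (h : ST_XMA2) (hS : Pool.Agent.Helper8.UN.ST_STI) : ST_XMAC := by
  obtain ⟨n₀, h0⟩ := h
  have hl2 : 0 < Real.log 2 := Real.log_pos (by norm_num)
  have hl2' : Real.log 2 ≤ 1 := by linarith [Real.log_two_lt_d9]
  set N : ℝ := (n₀ : ℝ) + 1 with hN
  have hNpos : 0 < N := by positivity
  set c : ℝ := min (1 / 200000) (Real.log 2 / (2 * N)) with hc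
  set C : ℝ := max 2000 ((N + 1) / Real.log 2) with hC
  have hc1 : c ≤ 1 / 200000 := min_le_left _ _
  have hc2 : c ≤ Real.log 2 / (2 * N) := min_le_right _ _
  have hcpos : 0 < c := lt_min (by norm_num) (by positivity)
  have hC1 : 2000 ≤ C := le_max_left _ _
  have hC2 : (N + 1) / Real.log 2 ≤ C := le_max_right _ _
  refine ⟨c, C, hcpos, by linarith, ?_⟩
  intro n hn E W0 hne hW hE hwt
  have hn2 : (2 : ℝ) ≤ n := by exact_mod_cast hn
  have hnpos : (0 : ℝ) < n := by linarith
  have hlog : Real.log 2 ≤ Real.log n := Real.log_le_log (by norm_num) hn2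
  have hlogpos : 0 < Real.log n := by linarith
  have hx : 0 ≤ (n : ℝ) / Real.log n := by positivity
  have hy : 0 ≤ Real.sqrt n / Real.log n := by positivity
  rcases Nat.lt_or_ge n n₀ with hlt | hge
  · have hltR : (n : ℝ) ≤ N := by
      rw [hN]
      have : (n : ℝ) ≤ n₀ := by exact_mod_cast hlt.le
      linarith
    have hsq : Real.sqrt n ≤ N := by
      refine le_trans ?_ hltR
      rw [Real.sqrt_le_left (by positivity)]
      nlinarith
    have hkey : ∀ x : ℝ, 0 ≤ x / Real.log n → x ≤ N →
        c * (x / Real.log n) ≤ 1 / 2 := by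
      intro x hx0 hxN
      calc c * (x / Real.log n)
          ≤ Real.log 2 / (2 * N) * (N / Real.log 2) := by
            apply mul_le_mul hc2 _ hx0 (by positivity)
            exact div_le_div₀ hNpos.le hxN hl2 hlog
        _ = 1 / 2 := by field_simp
    have hW0 : W0 = ∅ := by
      have h1 := hkey _ hy hsq
      have h2 : (W0.card : ℝ) < 1 := by linarith
      have h3 : W0.card < 1 := by exact_mod_cast h2
      exact Finset.card_eq_zero.1 (by omega)
    have hCN : N + 1 ≤ C * Real.log n := by
      calc N + 1 = (N + 1) / Real.log 2 * Real.log 2 := by field_simp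
        _ ≤ C * Real.log n := mul_le_mul hC2 hlog hl2.le (by linarith)
    apply hS n E
    rw [Finset.eq_empty_iff_forall_notMem]
    intro e he
    obtain ⟨v, hv⟩ := hne e he
    have hvW : v ∉ W0 := by rw [hW0]; exact Finset.notMem_empty v
    have hcard : (e.card : ℝ) < C * Real.log n := by
      have h2 : (e.card : ℝ) ≤ n := by
        have := Finset.card_le_univ e
        rw [Fintype.card_fin] at this
        exact_mod_cast this
      linarith
    rcases Nat.lt_or_ge e.card 4 with h4 | h4
    · have h1 := hE v hvW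
      have hmem : e ∈ E.filter (fun e => v ∈ e ∧ (e.card : ℝ) < C * Real.log n ∧
          (e.card < 4 ∨ (e ∩ W0).Nonempty)) := by
        rw [Finset.mem_filter]
        exact ⟨he, hv, hcard, Or.inl h4⟩
      have h5 : (1 : ℝ) ≤ ((E.filter (fun e => v ∈ e ∧ (e.card : ℝ) < C * Real.log n ∧
          (e.card < 4 ∨ (e ∩ W0).Nonempty))).card : ℝ) := by
        exact_mod_cast Finset.card_pos.2 ⟨e, hmem⟩
      have h6 := hkey _ hx hltR
      linarith
    · have h1 := hwt v hvW
      have hmem : e ∈ E.filter (fun e => v ∈ e ∧ 4 ≤ e.card ∧ (e.card : ℝ) < C * Real.log n ∧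
          Disjoint e W0) := by
        rw [Finset.mem_filter]
        refine ⟨he, hv, h4, hcard, ?_⟩
        rw [hW0]
        exact Finset.disjoint_empty_right e
      have h5 : (C * Real.log n / n) ^ (e.card - 2) ≤
          ∑ e ∈ E.filter (fun e => v ∈ e ∧ 4 ≤ e.card ∧ (e.card : ℝ) < C * Real.log n ∧
            Disjoint e W0), (C * Real.log n / n) ^ (e.card - 2) :=
        Finset.single_le_sum
          (f := fun e : Finset (Fin n) => (C * Real.log n / n) ^ (e.card - 2))
          (fun e' _ => pow_nonneg (div_nonneg (mul_nonneg (by linarith) hlogpos.le) hnpos.le) _) hmem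
      have h6 : (1 : ℝ) ≤ (C * Real.log n / n) ^ (e.card - 2) := by
        apply one_le_pow₀
        rw [le_div_iff₀ hnpos]
        linarith
      linarith
  · have hCl : 2000 * Real.log n ≤ C * Real.log n :=
      mul_le_mul_of_nonneg_right hC1 hlogpos.le
    have h4C : (4 : ℝ) ≤ C * Real.log n := by
      have h7 : (0.6 : ℝ) ≤ Real.log n := by linarith [Real.log_two_gt_d9]
      nlinarith
    apply h0 n hge E W0
    · exact hW.trans (mul_le_mul_of_nonneg_right (by linarith) hy)
    · intro v hvW
      have hsub : E.filter (fun e => v ∈ e ∧ (e.card < 4 ∨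
          ((e.card : ℝ) < 2000 * Real.log n ∧ (e ∩ W0).Nonempty))) ⊆
          E.filter (fun e => v ∈ e ∧ (e.card : ℝ) < C * Real.log n ∧
            (e.card < 4 ∨ (e ∩ W0).Nonempty)) := by
        intro e he
        rw [Finset.mem_filter] at he ⊢
        obtain ⟨he1, he2, he3⟩ := he
        refine ⟨he1, he2, ?_⟩
        rcases he3 with h4 | ⟨h5, h6⟩
        · refine ⟨lt_of_lt_of_le ?_ h4C, Or.inl h4⟩
          exact_mod_cast h4
        · exact ⟨h5.trans_le hCl, Or.inr h6⟩
      have h1 : ((E.filter (fun e => v ∈ e ∧ (e.card < 4 ∨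
          ((e.card : ℝ) < 2000 * Real.log n ∧ (e ∩ W0).Nonempty)))).card : ℝ) ≤
          ((E.filter (fun e => v ∈ e ∧ (e.card : ℝ) < C * Real.log n ∧
            (e.card < 4 ∨ (e ∩ W0).Nonempty))).card : ℝ) := by
        exact_mod_cast Finset.card_le_card hsub
      refine h1.trans ((hE v hvW).trans ?_)
      exact mul_le_mul_of_nonneg_right hc1 hx
    · intro v hvW
      have hsub : E.filter (fun e => v ∈ e ∧ 4 ≤ e.card ∧ (e.card : ℝ) < 2000 * Real.log n ∧
          Disjoint e W0) ⊆
          E.filter (fun e => v ∈ e ∧ 4 ≤ e.card ∧ (e.card : ℝ) < C * Real.log n ∧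
            Disjoint e W0) := by
        intro e he
        rw [Finset.mem_filter] at he ⊢
        exact ⟨he.1, he.2.1, he.2.2.1, he.2.2.2.1.trans_le hCl, he.2.2.2.2⟩
      calc ∑ e ∈ E.filter (fun e => v ∈ e ∧ 4 ≤ e.card ∧ (e.card : ℝ) < 2000 * Real.log n ∧
            Disjoint e W0), (2 * Real.log n / n) ^ (e.card - 2)
          ≤ ∑ e ∈ E.filter (fun e => v ∈ e ∧ 4 ≤ e.card ∧ (e.card : ℝ) < 2000 * Real.log n ∧
            Disjoint e W0), (C * Real.log n / n) ^ (e.card - 2) := by
            apply Finset.sum_le_sum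
            intro e _
            apply pow_le_pow_left₀ (by positivity)
            apply div_le_div_of_nonneg_right _ hnpos.le
            exact mul_le_mul_of_nonneg_right (by linarith) hlogpos.le
        _ ≤ ∑ e ∈ E.filter (fun e => v ∈ e ∧ 4 ≤ e.card ∧ (e.card : ℝ) < C * Real.log n ∧
            Disjoint e W0), (C * Real.log n / n) ^ (e.card - 2) := by
            apply Finset.sum_le_sum_of_subset_of_nonneg hsub
            intro e _ _
            exact pow_nonneg (div_nonneg (mul_nonneg (by linarith) hlogpos.le) hnpos.le) _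
        _ ≤ c := hwt v hvW
        _ ≤ 1 / 100000 := by linarith

end Pool.Agent.Helper5.WD
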